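import Pool.Agent.Run7.h283.MO.Unit
import Pool.Agent.TH876.Proj

/-!
# Several points of `a + b + c = 0` with a small joint radical, and all moments of the number of
solutions of unit equations

`K` is a number field of degree `d`. For `k` points `P_1, …, P_k` over `K`, of whatever heights, with
`a + b + c = 0`, `abc ≠ 0`, let `R(P_1, …, P_k)` be the product of the norms of the primes which occur
in at least one of the sets `I_K(P_i)`; so `R(P) = exp (d rad P)`. By the abc conjecture the heights
of all the points are at most `((1 + ε) / d) log R(P_1, …, P_k) + C`. We prove, with no hypothesis,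
that at most `C X ^ (1 - 1 / (3 k) + δ)` of the `k`-tuples have `R(P_1, …, P_k) ≤ X`. As the exponent
is less than one, all moments of the number of the solutions of the unit equation in the ring of
`n`-integers converge, when `n` runs through the ideals of `K` ordered by their norm.

Proof. Let `b_i` be the product of the primes which occur in `I_K(P_i)` only. One of the `k` numbers
`N(b_i)` is at most `X ^ (1 / k)`. If the other points and `b_i` are given there are at most
`C ^ (s + 1)` possibilities for `P_i`, `s` the number of the primes which occur. So the exponents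
`t_k` satisfy `t_k = t_(k-1) + (1 - t_(k-1)) / k`, and `t_1 = 2 / 3` is in the starting files (points
of all heights with a small radical). The two bounds used are `Pool.Agent.Y728.mainK` and
`Pool.Agent.TH876.Loc.light_count`.
-/

set_option autoImplicit false

namespace Pool.Agent.Results.MP_a793bb_nt.MomentsOfSolutions

open NumberField IsDedekindDomain Filter Topology

variable {K : Type} [Field K] [NumberField K]

/-- the set `I_K(P)` of the primes at which the three valuations are not all equal -/
def primes (a : Fin 3 → K) : Set (HeightOneSpectrum (𝓞 K)) :=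
  {v | ¬ (FinitePlace.mk v (a 0) = FinitePlace.mk v (a 1) ∧
    FinitePlace.mk v (a 1) = FinitePlace.mk v (a 2))}

/-- the points `(x : 1 : -x - 1)` with nonzero coordinates, given by `x` -/
def Points (K : Type) [Field K] : Type := {x : K // x ≠ 0 ∧ x + 1 ≠ 0}

/-- the coordinates of a point -/
def coords (P : Points K) : Fin 3 → K := ![P.1, 1, -P.1 - 1]

/-- the primes which occur for at least one of the points `P_1, …, P_k` -/
def joint {k : ℕ} (P : Fin k → Points K) : Set (HeightOneSpectrum (𝓞 K)) :=
  {v | ∃ i, v ∈ primes (coords (P i))}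

/-- `R(P_1, …, P_k)`, the product of the norms of these primes -/
noncomputable def R {k : ℕ} (P : Fin k → Points K) : ℝ :=
  ∏ᶠ v ∈ joint P, (Ideal.absNorm v.asIdeal : ℝ)

/-- the points all of whose primes divide `n` -/
def Sol (n : Ideal (𝓞 K)) : Set (Points K) :=
  {P | ∀ v ∈ primes (coords P), v.asIdeal ∣ n}

/-- the nonzero ideals of norm at most `N` -/
def Ideals (K : Type) [Field K] [NumberField K] (N : ℝ) : Set (Ideal (𝓞 K)) :=
  {n | n ≠ ⊥ ∧ (Ideal.absNorm n : ℝ) ≤ N}

open Run7.h283.UE in
theorem ideals_eq (N : ℝ) : Ideals K N = (IF K N : Set (Ideal (𝓞 K))) := by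
  ext n
  rw [Finset.mem_coe, mem_IF]
  rfl

open Run7.h283.UE in
theorem ncard_eq (N : ℝ) : ((Ideals K N).ncard : ℝ) = cnt K N := by
  rw [ideals_eq, Set.ncard_coe_finset]
  rfl

open Pool.Agent.TH876.Loc in
theorem mem_primes (P : Points K) (v : HeightOneSpectrum (𝓞 K)) :
    v ∈ primes (coords P) ↔ v ∈ sp P.1 := by
  have h := sp_of_triple (x := coords P) (L_sum P.1)
    (mul_ne_zero (mul_ne_zero P.2.1 one_ne_zero) (L_ne (x := P.1) P.2 2)) v
  have e : coords P 0 / coords P 1 = P.1 := div_one _
  rw [e] at h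
  exact h.symm

open Pool.Agent.TH876.Loc Run7.h283.MO in
theorem joint_eq {k : ℕ} (P : Fin k → Points K) :
    joint P = (un (fun P : Points K => sp P.1) P : Set (HeightOneSpectrum (𝓞 K))) := by
  ext v
  rw [Finset.mem_coe, mem_un]
  exact exists_congr fun i => mem_primes _ _

open Pool.Agent.TH876.Loc Run7.h283.MO in
theorem R_eq {k : ℕ} (P : Fin k → Points K) :
    R P = nn (un (fun P : Points K => sp P.1) P) := by
  unfold R
  rw [joint_eq, finprod_mem_coe_finset]
  rfl

open Run7.h283.UE Pool.Agent.TH876.Loc in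
theorem sol_eq (n : Ideal (𝓞 K)) : Sol n = U (fun P : Points K => sp P.1) n := by
  ext P
  exact forall_congr' fun v => by rw [mem_primes]

open Pool.Agent.TH876.Loc Run7.h283.MO Run7.h283.UE in
/-- **Tuples of points with a small joint radical, and the moments of the number of the solutions of
unit equations.** Let `K` be a number field, `k ≥ 1`.
(0) Every point `P = (a : b : c)` over `K` with `a + b + c = 0`, `abc ≠ 0` has the coordinates
`coords P` for exactly one `P` in `Points K`.
(1) For `δ > 0` and all `X ≥ 1` at most `C X ^ (1 - 1 / (3 k) + δ)` of the `k`-tuples of points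
satisfy `R(P_1, …, P_k) ≤ X`.
(2) The sum of `1 / R(P_1, …, P_k)` over all `k`-tuples converges, and the mean value of the `k`-th
power of the number of the points whose primes all divide `n`, over all ideals `n ≠ 0` of norm at most
`N`, converges to this sum for `N → ∞`.
(3) For all `T > 0` and `N ≥ 1` at most `C T ^ (-k) N` ideals of norm at most `N` have at least `T`
such points. -/
theorem result (K : Type) [Field K] [NumberField K] (k : ℕ) (hk : 1 ≤ k) :
    (∀ P : Points K, coords P 0 + coords P 1 + coords P 2 = 0 ∧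
      coords P 0 * coords P 1 * coords P 2 ≠ 0) ∧
    (∀ a : Fin 3 → K, a 0 + a 1 + a 2 = 0 → a 0 * a 1 * a 2 ≠ 0 →
      ∃! P : Points K, ∃ l : K, l ≠ 0 ∧ a = l • coords P) ∧
    (∀ P : Fin k → Points K, (joint P).Finite) ∧
    (∀ δ : ℝ, 0 < δ → ∃ C : ℝ, ∀ X : ℝ, 1 ≤ X → {P : Fin k → Points K | R P ≤ X}.Finite ∧
      ({P : Fin k → Points K | R P ≤ X}.ncard : ℝ) ≤ C * X ^ (1 - 1 / (3 * (k : ℝ)) + δ)) ∧
    (∀ n : Ideal (𝓞 K), n ≠ ⊥ → (Sol n).Finite) ∧
    (∀ N : ℝ, (Ideals K N).Finite) ∧
    (Summable fun P : Fin k → Points K => (R P)⁻¹) ∧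
    Tendsto (fun N : ℝ => (∑ᶠ n ∈ Ideals K N, ((Sol n).ncard : ℝ) ^ k) / ((Ideals K N).ncard : ℝ))
      atTop (𝓝 (∑' P : Fin k → Points K, (R P)⁻¹)) ∧
    (∃ C : ℝ, ∀ T N : ℝ, 0 < T → 1 ≤ N →
      ({n ∈ Ideals K N | T ≤ ((Sol n).ncard : ℝ)}.ncard : ℝ) ≤ C * T ^ (-(k : ℝ)) * N) := by
  classical
  obtain ⟨m, rfl⟩ : ∃ m, k = m + 1 := ⟨k - 1, by omega⟩
  have hS1 : Summable fun P : Points K => (nn (sp P.1))⁻¹ := by
    obtain ⟨D, hD, h⟩ := pt_count K (1 / 6) (by norm_num)
    exact summable_of_count _ (fun P => one_le_nn _) hD (by norm_num) h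
  have hS := pt_summable K m
  have hR : ∀ P : Fin (m + 1) → Points K, R P = nn (un (fun P : PT K => sp P.1) P) :=
    fun P => R_eq P
  have hRfun : (fun P : Fin (m + 1) → Points K => (R P)⁻¹) =
      fun P => (nn (un (fun P : PT K => sp P.1) P))⁻¹ := funext fun P => by rw [hR]
  have hpow : ∀ n : Ideal (𝓞 K), ((Sol n).ncard : ℝ) ^ (m + 1) =
      ((U (fun x : Fin (m + 1) → PT K => un (fun P : PT K => sp P.1) x) n).ncard : ℝ) := by
    intro n
    rw [U_un, ncard_pi, sol_eq, Nat.cast_pow]
    rfl
  refine ⟨fun P => ⟨?_, ?_⟩, ?_, ?_, ?_, ?_, ?_, ?_, ?_, ?_⟩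
  · show P.1 + 1 + (-P.1 - 1) = 0
    ring
  · show P.1 * 1 * (-P.1 - 1) ≠ 0
    refine mul_ne_zero (mul_ne_zero P.2.1 one_ne_zero) ?_
    intro h
    exact P.2.2 (by linear_combination -h)
  · intro a hs hne
    have h0 : a 0 ≠ 0 := fun h => hne (by rw [h]; ring)
    have h1 : a 1 ≠ 0 := fun h => hne (by rw [h]; ring)
    have hp := pt_of_triple hs hne
    refine ⟨⟨a 0 / a 1, hp⟩, ⟨a 1, h1, ?_⟩, ?_⟩
    · funext i
      rw [Pi.smul_apply, smul_eq_mul]
      fin_cases i
      · show a 0 = a 1 * (a 0 / a 1)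
        field_simp
      · show a 1 = a 1 * 1
        ring
      · show a 2 = a 1 * (-(a 0 / a 1) - 1)
        have : a 2 = -(a 0 + a 1) := by linear_combination hs
        rw [this]
        field_simp
        ring
    · rintro Q ⟨l, hl, hQ⟩
      apply Subtype.ext
      have e0 := congrFun hQ 0
      have e1 := congrFun hQ 1
      rw [Pi.smul_apply, smul_eq_mul] at e0 e1
      have e0' : a 0 = l * Q.1 := e0
      have e1' : a 1 = l * 1 := e1
      show Q.1 = a 0 / a 1
      rw [e0', e1']
      field_simp
  · intro P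
    rw [joint_eq]
    exact Finset.finite_toSet _
  · intro δ hδ
    obtain ⟨D, hD, h⟩ := pt_tuples K m δ hδ
    refine ⟨D, fun X hX => ?_⟩
    have hfin : {P : Fin (m + 1) → Points K | R P ≤ X}.Finite := by
      have h1 := fin_le hS X
      exact h1.subset fun P hP => le_trans (le_of_eq (hR P).symm) hP
    refine ⟨hfin, ?_⟩
    rw [Set.ncard_eq_toFinset_card _ hfin]
    have h1 := h X hX hfin.toFinset fun P hP =>
      le_trans (le_of_eq (hR P).symm) (hfin.mem_toFinset.1 hP)
    push_cast
    exact h1
  · intro n hn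
    rw [sol_eq]
    exact U_finite hS1 hn
  · intro N
    rw [ideals_eq]
    exact Finset.finite_toSet _
  · rw [hRfun]
    exact hS
  · rw [hRfun]
    refine (mean hS).congr fun N => ?_
    rw [ncard_eq, ideals_eq, finsum_mem_coe_finset]
    congr 1
    exact Finset.sum_congr rfl fun n _ => (hpow n).symm
  · obtain ⟨C, hC, h⟩ := sum_bound (K := K)
    refine ⟨C * ∑' P : Fin (m + 1) → PT K, (nn (un (fun P : PT K => sp P.1) P))⁻¹,
      fun T N hT hN => ?_⟩
    have h1 := h hS N (by linarith)
    have h2 : {n ∈ Ideals K N | T ≤ ((Sol n).ncard : ℝ)} =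
        ((IF K N).filter fun n => T ≤ ((Sol n).ncard : ℝ) : Set (Ideal (𝓞 K))) := by
      ext n
      rw [Finset.coe_filter, ideals_eq]
      rfl
    rw [h2, Set.ncard_coe_finset]
    have h3 : (((IF K N).filter fun n => T ≤ ((Sol n).ncard : ℝ)).card : ℝ) * T ^ (m + 1) ≤
        ∑ n ∈ IF K N, ((U (fun x : Fin (m + 1) → PT K => un (fun P : PT K => sp P.1) x)
          n).ncard : ℝ) := by
      rw [← nsmul_eq_mul]
      refine (Finset.card_nsmul_le_sum _ (fun n => ((U (fun x : Fin (m + 1) → PT K =>
        un (fun P : PT K => sp P.1) x) n).ncard : ℝ)) _ fun n hn => ?_).trans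
        (Finset.sum_le_sum_of_subset_of_nonneg (Finset.filter_subset _ _) fun n _ _ =>
          Nat.cast_nonneg _)
      rw [← hpow n]
      exact pow_le_pow_left₀ hT.le (Finset.mem_filter.1 hn).2 _
    rw [Real.rpow_neg hT.le, Real.rpow_natCast]
    have h4 : 0 < T ^ (m + 1) := by positivity
    have h5 := h3.trans h1
    rw [← le_div_iff₀ h4] at h5
    refine h5.trans (le_of_eq ?_)
    rw [div_eq_mul_inv]
    ring

end Pool.Agent.Results.MP_a793bb_nt.MomentsOfSolutions
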