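import Pool.Agent.Run7.h283.MK.Expo
import Pool.Agent.TH876.Proj

/-!
# The radical of the points of `a + b + c = 0` divisible by a given ideal of a number field

`K` is a number field of degree `d`. For a nonzero ideal `n` of its ring of integers consider the
points `P = (a : b : c)` over `K`, of whatever height, with `a + b + c = 0`, `abc ≠ 0`, for which
every prime factor of `n` occurs in `I_K(P)`, for example those for which `n` divides the ideal
`(a b c) / (a, b, c) ^ 3`. The abc conjecture bounds their radical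
from below by a power of the norm of `n`, for every `n`. Here this is done unconditionally, with the
exponent `3 / 2`, for almost all `n`, with a power saving, and the exact exponent of the number of
the ideals `n` with a multiple of a given small radical is determined.
-/

set_option autoImplicit false

namespace Pool.Agent.Results.MP_a793bb_nt.MultiplesOfIdeals

open NumberField IsDedekindDomain

variable {K : Type} [Field K] [NumberField K]

/-- `(x 0 : x 1 : x 2)` is a point of the line `a + b + c = 0` with `a b c ≠ 0` -/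
def IsPoint (x : Fin 3 → K) : Prop := x 0 + x 1 + x 2 = 0 ∧ x 0 * x 1 * x 2 ≠ 0

/-- the set `I_K(P)` of the primes at which the three valuations are not all equal -/
def primes (x : Fin 3 → K) : Set (HeightOneSpectrum (𝓞 K)) :=
  {v | ¬ (FinitePlace.mk v (x 0) = FinitePlace.mk v (x 1) ∧
    FinitePlace.mk v (x 1) = FinitePlace.mk v (x 2))}

/-- the radical of a point, `(1 / d) ∑ log N(p)` over the primes of `I_K(P)` -/
noncomputable def rad (x : Fin 3 → K) : ℝ :=
  (∑ᶠ v ∈ primes x, Real.log (Ideal.absNorm v.asIdeal : ℝ)) / (Module.finrank ℚ K : ℝ)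

/-- `R(P) = exp (d rad P)`, the product of the norms of the primes of `I_K(P)` -/
noncomputable def R (x : Fin 3 → K) : ℝ := Real.exp ((Module.finrank ℚ K : ℝ) * rad x)

/-- every prime factor of the ideal `n` occurs in `I_K(P)` -/
def Meets (n : Ideal (𝓞 K)) (x : Fin 3 → K) : Prop :=
  ∀ v : HeightOneSpectrum (𝓞 K), v.asIdeal ∣ n → v ∈ primes x

/-- the ideal `n` divides the ideal `(x 0 x 1 x 2) / (x 0, x 1, x 2) ^ 3`: if the `k`-th power of
a prime divides `n`, then the valuation of that ideal at the prime is at least `k` -/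
def Divides (n : Ideal (𝓞 K)) (x : Fin 3 → K) : Prop :=
  ∀ (v : HeightOneSpectrum (𝓞 K)) (k : ℕ), v.asIdeal ^ k ∣ n →
    FinitePlace.mk v (x 0 * x 1 * x 2) * (Ideal.absNorm v.asIdeal : ℝ) ^ k ≤
      (max (FinitePlace.mk v (x 0)) (max (FinitePlace.mk v (x 1)) (FinitePlace.mk v (x 2)))) ^ 3

/-- the ideals of norm at most `N` with a multiple of radical at most `N(n) ^ (3 / 2 - ε)` or
`N(n) ^ (1 - ε) N(p)` for a prime factor `p` of `n` -/
def Exceptions (K : Type) [Field K] [NumberField K] (ε N : ℝ) : Set (Ideal (𝓞 K)) :=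
  {n | n ≠ ⊥ ∧ (Ideal.absNorm n : ℝ) ≤ N ∧ ∃ x : Fin 3 → K, IsPoint x ∧ Meets n x ∧
    (R x ≤ (Ideal.absNorm n : ℝ) ^ (3 / 2 - ε) ∨ ∃ v : HeightOneSpectrum (𝓞 K), v.asIdeal ∣ n ∧
      R x ≤ (Ideal.absNorm n : ℝ) ^ (1 - ε) * (Ideal.absNorm v.asIdeal : ℝ))}

/-- the ideals of norm at most `N` all of whose primes occur in a point with `R ≤ N ^ l` -/
def WeakMultiples (K : Type) [Field K] [NumberField K] (l N : ℝ) : Set (Ideal (𝓞 K)) :=
  {n | n ≠ ⊥ ∧ (Ideal.absNorm n : ℝ) ≤ N ∧ ∃ x : Fin 3 → K, IsPoint x ∧ Meets n x ∧ R x ≤ N ^ l}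

/-- the ideals of norm at most `N` which divide a point with `R ≤ N ^ l` -/
def StrongMultiples (K : Type) [Field K] [NumberField K] (l N : ℝ) : Set (Ideal (𝓞 K)) :=
  {n | n ≠ ⊥ ∧ (Ideal.absNorm n : ℝ) ≤ N ∧ ∃ x : Fin 3 → K, IsPoint x ∧ Divides n x ∧ R x ≤ N ^ l}

open Pool.Agent.TH876.Loc in
theorem R_eq {x : Fin 3 → K} (hx : IsPoint x) : R x = nn (sp (x 0 / x 1)) := by
  have hd : (Module.finrank ℚ K : ℝ) ≠ 0 := by
    exact_mod_cast (Module.finrank_pos (R := ℚ) (M := K)).ne'
  exact exp_log_nn (I := primes x) (fun v => sp_of_triple hx.1 hx.2 v) hd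

open Pool.Agent.TH876.Loc Run7.h283.MK in
theorem meets_iff {n : Ideal (𝓞 K)} {x : Fin 3 → K} (hx : IsPoint x) :
    Meets n x ↔ MeetK n (x 0 / x 1) :=
  forall_congr' fun v => imp_congr_right fun _ => (sp_of_triple hx.1 hx.2 v).symm

theorem meets_of_divides {n : Ideal (𝓞 K)} {x : Fin 3 → K} (hx : IsPoint x) (h : Divides n x) :
    Meets n x := by
  intro v hv hcon
  obtain ⟨h1, h2⟩ := hcon
  have h3 := h v 1 (by rwa [pow_one])
  have h0 : x 0 ≠ 0 := fun h => hx.2 (by rw [h]; ring)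
  have hp : 0 < FinitePlace.mk v (x 0) := by
    have := (Pool.Agent.H691R3.fv v).pos h0
    exact this
  rw [map_mul, map_mul, ← h2, ← h1, max_self, max_self, pow_one] at h3
  have h4 : 2 ≤ (Ideal.absNorm v.asIdeal : ℝ) := Pool.Agent.H691R3.two_le_Nv v
  have h5 : 0 < FinitePlace.mk v (x 0) ^ 3 := pow_pos hp 3
  nlinarith

theorem finite_norm (N : ℝ) : {n : Ideal (𝓞 K) | (Ideal.absNorm n : ℝ) ≤ N}.Finite := by
  refine (Ideal.finite_setOfPred_absNorm_le (S := 𝓞 K) ⌈N⌉₊).subset ?_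
  intro I hI
  have h1 : (Ideal.absNorm I : ℝ) ≤ ⌈N⌉₊ := le_trans hI (Nat.le_ceil N)
  exact_mod_cast h1

omit [NumberField K] in
theorem card_le {A : Set (Ideal (𝓞 K))} (hA : A.Finite) {B : ℝ}
    (h : ∀ E : Finset (Ideal (𝓞 K)), (∀ I ∈ E, I ∈ A) → (E.card : ℝ) ≤ B) :
    (A.ncard : ℝ) ≤ B := by
  rw [Set.ncard_eq_toFinset_card A hA]
  exact h _ fun I hI => (Set.Finite.mem_toFinset hA).1 hI

open Pool.Agent.TH876.Loc Pool.Agent.TH876.KR in
/-- from the affine coordinate to the projective point -/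
theorem point_of {y : K} (hy : Pt y) {n : Ideal (𝓞 K)}
    (h : ∀ (v : Pr K) (k : ℕ), v.asIdeal ^ k ∣ n → k ≤ ex 0 y v + ex 1 y v) :
    IsPoint (fun i => L i y) ∧ Divides n (fun i => L i y) ∧
      R (fun i : Fin 3 => L i y) = nn (sp y) := by
  have hP : IsPoint (fun i => L i y) :=
    ⟨L_sum y, mul_ne_zero (mul_ne_zero (L_ne hy 0) (L_ne hy 1)) (L_ne hy 2)⟩
  refine ⟨hP, fun v k hk => ?_, ?_⟩
  · have h1 := h v k hk
    have hN := log_Nv_pos' v
    have hM : 0 < M (Sum.inr v : Pool.Agent.H691R3.Pl K) y := lt_of_lt_of_le one_pos (one_le_M _ y)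
    have hpos : ∀ i : Fin 3, 0 < Pool.Agent.H691R3.fv v (L i y) := fun i => fv_pos v (L_ne hy i)
    have e0 : ∀ i : Fin 3, Real.log (Pool.Agent.H691R3.fv v (L i y)) =
        Real.log (M (Sum.inr v : Pool.Agent.H691R3.Pl K) y) -
          ex i y v * Real.log (Pool.Agent.H691R3.Nv v) := by
      intro i
      rw [← df_ex hy, df_inr]
      ring
    show Pool.Agent.H691R3.fv v (L 0 y * L 1 y * L 2 y) * Pool.Agent.H691R3.Nv v ^ k ≤
      (M (Sum.inr v : Pool.Agent.H691R3.Pl K) y) ^ 3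
    rw [← Real.log_le_log_iff (mul_pos ((Pool.Agent.H691R3.fv v).pos
      (mul_ne_zero (mul_ne_zero (L_ne hy 0) (L_ne hy 1)) (L_ne hy 2)))
        (pow_pos (Nv_pos v) k)) (pow_pos hM 3),
      Real.log_mul ((Pool.Agent.H691R3.fv v).pos
        (mul_ne_zero (mul_ne_zero (L_ne hy 0) (L_ne hy 1)) (L_ne hy 2))).ne'
        (pow_pos (Nv_pos v) k).ne', map_mul, map_mul,
      Real.log_mul (mul_pos (hpos 0) (hpos 1)).ne' (hpos 2).ne',
      Real.log_mul (hpos 0).ne' (hpos 1).ne', Real.log_pow, Real.log_pow, e0 0, e0 1, e0 2]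
    have h2 : (k : ℝ) ≤ ex 0 y v + ex 1 y v := by exact_mod_cast h1
    have h3 : (0 : ℝ) ≤ ex 2 y v := Nat.cast_nonneg _
    push_cast
    nlinarith
  · rw [R_eq hP]
    show nn (sp (y / 1)) = nn (sp y)
    rw [div_one]

/-- **The radical of the multiples of an ideal.** Let `K` be a number field of degree `d`. The
points `P = (a : b : c)` over `K` with `a + b + c = 0`, `abc ≠ 0` are considered, of whatever
height, and `R(P) = exp (d rad P)`.
(0) If `n` divides `(a b c) / (a, b, c) ^ 3`, then all prime factors of `n` occur in `I_K(P)`.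
(1) Let `0 < ε ≤ 1`. All but `C N ^ (1 - ε / 2)` of the nonzero ideals `n` of norm at most `N` have
the following property: every point `P` such that all prime factors of `n` occur in `I_K(P)`
satisfies `R(P) > N(n) ^ (3 / 2 - ε)` and `R(P) > N(n) ^ (1 - ε) N(p)` for all primes `p`
dividing `n`.
(2) Let `l, δ > 0`, and `m = min (1, 2 l / 3)`. For large `N` the number of the nonzero ideals `n`
of norm at most `N` for which there is a point `P` with `R(P) ≤ N ^ l` such that all prime factors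
of `n` occur in `I_K(P)` is at most `N ^ (m + δ)`, and the number of those for which there is such
a point such that `n` divides `(a b c) / (a, b, c) ^ 3` is at least `N ^ (m - δ)`. -/
theorem result (K : Type) [Field K] [NumberField K] :
    (∀ (n : Ideal (𝓞 K)) (x : Fin 3 → K), IsPoint x → Divides n x → Meets n x) ∧
    (∀ ε : ℝ, 0 < ε → ε ≤ 1 → ∃ C : ℝ, ∀ N : ℝ, 1 ≤ N → (Exceptions K ε N).Finite ∧
      ((Exceptions K ε N).ncard : ℝ) ≤ C * N ^ (1 - ε / 2)) ∧
    (∀ l δ : ℝ, 0 < l → 0 < δ → ∃ N₀ : ℝ, ∀ N : ℝ, N₀ ≤ N →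
      StrongMultiples K l N ⊆ WeakMultiples K l N ∧ (WeakMultiples K l N).Finite ∧
      N ^ (min 1 (2 * l / 3) - δ) ≤ ((StrongMultiples K l N).ncard : ℝ) ∧
      ((WeakMultiples K l N).ncard : ℝ) ≤ N ^ (min 1 (2 * l / 3) + δ)) := by
  classical
  refine ⟨fun n x hx h => meets_of_divides hx h, fun ε hε hε1 => ?_, fun l δ hl hδ => ?_⟩
  · obtain ⟨C, hC, h1⟩ := Run7.h283.MK.almost_all K hε hε1
    refine ⟨C, fun N hN => ?_⟩
    have hfin : (Exceptions K ε N).Finite := (finite_norm N).subset fun n hn => hn.2.1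
    refine ⟨hfin, card_le hfin fun E hE => h1 N hN E fun I hI => ?_⟩
    obtain ⟨a1, a2, x, a3, a4, a5⟩ := hE I hI
    rw [R_eq a3] at a5
    rw [meets_iff a3] at a4
    exact ⟨a1, a2, x 0 / x 1, Pool.Agent.TH876.Loc.pt_of_triple a3.1 a3.2, a4, a5⟩
  · obtain ⟨C, hC, hup⟩ := Run7.h283.MK.upper_exp K hl (δ := δ / 2) (by positivity)
    obtain ⟨N1, hN1, hlow⟩ := Run7.h283.MK.lower_exp K hl hδ
    refine ⟨max N1 (C ^ (2 / δ)), fun N hN => ?_⟩
    have hNN1 : N1 ≤ N := (le_max_left _ _).trans hN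
    have hN1' : 1 ≤ N := hN1.trans hNN1
    have hN0 : 0 < N := by linarith
    have hCN : C ≤ N ^ (δ / 2) := by
      have h3 := Real.rpow_le_rpow (by positivity) ((le_max_right _ _).trans hN) (z := δ / 2)
        (by positivity)
      rw [← Real.rpow_mul hC.le] at h3
      have h4 : 2 / δ * (δ / 2) = 1 := by field_simp
      rwa [h4, Real.rpow_one] at h3
    have hfin : (WeakMultiples K l N).Finite := (finite_norm N).subset fun n hn => hn.2.1
    have hsub : StrongMultiples K l N ⊆ WeakMultiples K l N := by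
      rintro n ⟨a1, a2, x, a3, a4, a5⟩
      exact ⟨a1, a2, x, a3, meets_of_divides a3 a4, a5⟩
    refine ⟨hsub, hfin, ?_, ?_⟩
    · obtain ⟨E, hE, hEc⟩ := hlow N hNN1
      refine hEc.trans ?_
      have hE2 : (E : Set (Ideal (𝓞 K))) ⊆ StrongMultiples K l N := by
        intro I hI
        obtain ⟨a1, a2, y, a3, a4, a5⟩ := hE I hI
        obtain ⟨b1, b2, b3⟩ := point_of a3 a5
        exact ⟨a1, a2, fun i => Pool.Agent.TH876.Loc.L i y, b1, b2, by rw [b3]; exact a4⟩
      have h1 := Set.ncard_le_ncard hE2 (hfin.subset hsub)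
      rw [Set.ncard_coe_finset] at h1
      exact_mod_cast h1
    · have h1 : ((WeakMultiples K l N).ncard : ℝ) ≤ C * N ^ (min 1 (2 * l / 3) + δ / 2) := by
        refine card_le hfin fun E hE => hup N hN1' E fun I hI => ?_
        obtain ⟨a1, a2, x, a3, a4, a5⟩ := hE I hI
        rw [R_eq a3] at a5
        rw [meets_iff a3] at a4
        exact ⟨a1, a2, x 0 / x 1, Pool.Agent.TH876.Loc.pt_of_triple a3.1 a3.2, a5, a4⟩
      refine h1.trans ?_
      calc C * N ^ (min 1 (2 * l / 3) + δ / 2) ≤ N ^ (δ / 2) * N ^ (min 1 (2 * l / 3) + δ / 2) :=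
            mul_le_mul_of_nonneg_right hCN (by positivity)
        _ = N ^ (min 1 (2 * l / 3) + δ) := by
            rw [← Real.rpow_add hN0]
            congr 1
            ring

end Pool.Agent.Results.MP_a793bb_nt.MultiplesOfIdeals
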