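import Pool.Agent.Run7.h283.UE.Tail
import Pool.Agent.Y728.MainK
import Pool.Agent.TH876.Proj

/-!
# The unit equation over a number field for almost all sets of primes

`K` is a number field of degree `d`. For a nonzero ideal `n` of the ring of integers let `Sol n` be
the set of all points `P = (a : b : c)` over `K`, of whatever height, with `a + b + c = 0`,
`abc ≠ 0`, all of whose primes `I_K(P)` divide `n`: the solutions of the unit equation in the ring
of the `n`-integers. The abc conjecture bounds their heights by `(1 + ε) log N(n) / d + C`, for every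
`n`. Here `n` varies over all ideals, ordered by their norm. The random finite set `Sol n` has a
limit law, with the finite mean `∑ 1 / R(P)` over all points `P`; outside of a set of ideals of
small density all the sets `Sol n` lie in one finite set of points, so that almost always the heights
of all solutions are at most `ψ(N(n))`, for any function `ψ` tending to infinity, as slowly as we
like.
-/

set_option autoImplicit false

namespace Pool.Agent.Results.MP_a793bb_nt.UnitEquationsLaw

open NumberField IsDedekindDomain Filter Topology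

variable {K : Type} [Field K] [NumberField K]

/-- the height `h(P)` of the point with coordinates `a` -/
noncomputable def height (a : Fin 3 → K) : ℝ :=
  (∑ w : InfinitePlace K, (w.mult : ℝ) * Real.log (max (w (a 0)) (max (w (a 1)) (w (a 2)))) +
    ∑ᶠ v : HeightOneSpectrum (𝓞 K), Real.log
      (max (FinitePlace.mk v (a 0)) (max (FinitePlace.mk v (a 1)) (FinitePlace.mk v (a 2))))) /
    (Module.finrank ℚ K : ℝ)

/-- the set `I_K(P)` of the primes at which the three valuations are not all equal -/
def primes (a : Fin 3 → K) : Set (HeightOneSpectrum (𝓞 K)) :=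
  {v | ¬ (FinitePlace.mk v (a 0) = FinitePlace.mk v (a 1) ∧
    FinitePlace.mk v (a 1) = FinitePlace.mk v (a 2))}

/-- the radical of a point, `(1 / d) ∑ log N(p)` over the primes of `I_K(P)` -/
noncomputable def rad (a : Fin 3 → K) : ℝ :=
  (∑ᶠ v ∈ primes a, Real.log (Ideal.absNorm v.asIdeal : ℝ)) / (Module.finrank ℚ K : ℝ)

/-- `R(P) = exp (d rad P)`, the product of the norms of the primes of `I_K(P)` -/
noncomputable def R (a : Fin 3 → K) : ℝ := Real.exp ((Module.finrank ℚ K : ℝ) * rad a)

/-- the points `(x : 1 : -x - 1)` with nonzero coordinates, given by `x` -/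
def Points (K : Type) [Field K] : Type := {x : K // x ≠ 0 ∧ x + 1 ≠ 0}

/-- the coordinates of a point -/
def coords (P : Points K) : Fin 3 → K := ![P.1, 1, -P.1 - 1]

/-- the points all of whose primes divide `n` -/
def Sol (n : Ideal (𝓞 K)) : Set (Points K) :=
  {P | ∀ v ∈ primes (coords P), v.asIdeal ∣ n}

/-- the nonzero ideals of norm at most `N` -/
def Ideals (K : Type) [Field K] [NumberField K] (N : ℝ) : Set (Ideal (𝓞 K)) :=
  {n | n ≠ ⊥ ∧ (Ideal.absNorm n : ℝ) ≤ N}

/-- the set of the nonzero ideals with the property `A` has the natural density `δ` -/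
def Density (A : Ideal (𝓞 K) → Prop) (δ : ℝ) : Prop :=
  Tendsto (fun N : ℝ => ({n ∈ Ideals K N | A n}.ncard : ℝ) / ((Ideals K N).ncard : ℝ)) atTop (𝓝 δ)

open Run7.h283.UE in
theorem ideals_eq (N : ℝ) : Ideals K N = (IF K N : Set (Ideal (𝓞 K))) := by
  ext n
  rw [Finset.mem_coe, mem_IF]
  rfl

open Run7.h283.UE in
theorem ncard_eq (N : ℝ) : ((Ideals K N).ncard : ℝ) = cnt K N := by
  rw [ideals_eq, Set.ncard_coe_finset]
  rfl

open Classical Run7.h283.UE in
theorem ncard_sep (N : ℝ) (A : Ideal (𝓞 K) → Prop) :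
    {n ∈ Ideals K N | A n}.ncard = ((IF K N).filter A).card := by
  rw [← Set.ncard_coe_finset, Finset.coe_filter]
  congr 1
  ext n
  rw [ideals_eq]
  rfl

open Classical Run7.h283.UE in
theorem density_of {A : Ideal (𝓞 K) → Prop} {δ : ℝ} (h : HasDens K A δ) : Density A δ := by
  unfold HasDens at h
  unfold Density
  have e : (fun N : ℝ => ({n ∈ Ideals K N | A n}.ncard : ℝ) / ((Ideals K N).ncard : ℝ)) =
      fun N : ℝ => ((((IF K N).filter A).card : ℕ) : ℝ) / cnt K N := by
    funext N
    rw [ncard_eq, ncard_sep]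
  rw [e]
  exact h

open Pool.Agent.TH876.Loc in
theorem mem_primes (P : Points K) (v : HeightOneSpectrum (𝓞 K)) :
    v ∈ primes (coords P) ↔ v ∈ sp P.1 := by
  have h := sp_of_triple (x := coords P) (L_sum P.1)
    (mul_ne_zero (mul_ne_zero P.2.1 one_ne_zero) (L_ne (x := P.1) P.2 2)) v
  have e : coords P 0 / coords P 1 = P.1 := div_one _
  rw [e] at h
  exact h.symm

open Pool.Agent.TH876.Loc in
theorem R_eq (P : Points K) : R (coords P) = nn (sp P.1) := by
  have hd : (Module.finrank ℚ K : ℝ) ≠ 0 := by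
    exact_mod_cast (Module.finrank_pos (R := ℚ) (M := K)).ne'
  exact exp_log_nn (I := primes (coords P)) (fun v => (mem_primes P v).symm) hd

open Run7.h283.UE Pool.Agent.TH876.Loc in
theorem sol_eq (n : Ideal (𝓞 K)) : Sol n = U (fun P : Points K => sp P.1) n := by
  ext P
  exact forall_congr' fun v => by rw [mem_primes]

open Classical in
/-- **The solutions of the unit equation for almost all sets of primes.** Let `K` be a number field
of degree `d`.
(0) Every point `P = (a : b : c)` over `K` with `a + b + c = 0`, `abc ≠ 0` has the coordinates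
`coords P` for exactly one `P` in `Points K`.
(1) The number of the points whose primes all divide a given ideal `n ≠ 0` is finite, and its mean
value over all `n ≠ 0` of norm at most `N` converges for `N → ∞`, to the convergent sum of `1 / R(P)`
over all points `P`.
(2) The set `Sol n` of these points has a limit law: there are `w F ≥ 0`, for the finite sets `F` of
points, with `∑ w F = 1` and `∑ #F w F = ∑ 1 / R(P)`, such that for every set `Φ` of sets of points
the set of the ideals `n` with `Sol n ∈ Φ` has the natural density `∑ w F` over the `F` in `Φ`.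
(3) For `δ > 0` and all `Z, N ≥ 1` at most `C Z ^ (- 1 / 3 + δ) N` ideals `n` of norm at most `N`
have a point `P` with `R(P) > Z` in `Sol n`.
(4) For every function `ψ` tending to infinity, for almost all ideals `n` (all but a set of natural
density zero) all points in `Sol n` have height at most `ψ (N(n))`. -/
theorem result (K : Type) [Field K] [NumberField K] :
    (∀ P : Points K, coords P 0 + coords P 1 + coords P 2 = 0 ∧
      coords P 0 * coords P 1 * coords P 2 ≠ 0) ∧
    (∀ a : Fin 3 → K, a 0 + a 1 + a 2 = 0 → a 0 * a 1 * a 2 ≠ 0 →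
      ∃! P : Points K, ∃ l : K, l ≠ 0 ∧ a = l • coords P) ∧
    (∀ n : Ideal (𝓞 K), n ≠ ⊥ → (Sol n).Finite) ∧
    (∀ N : ℝ, (Ideals K N).Finite) ∧
    (Summable fun P : Points K => (R (coords P))⁻¹) ∧
    Tendsto (fun N : ℝ => (∑ᶠ n ∈ Ideals K N, ((Sol n).ncard : ℝ)) / ((Ideals K N).ncard : ℝ))
      atTop (𝓝 (∑' P : Points K, (R (coords P))⁻¹)) ∧
    (∃ w : Finset (Points K) → ℝ, (∀ F, 0 ≤ w F) ∧ HasSum w 1 ∧
      HasSum (fun F : Finset (Points K) => (F.card : ℝ) * w F)
        (∑' P : Points K, (R (coords P))⁻¹) ∧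
      ∀ Φ : Set (Set (Points K)),
        Density (fun n => Sol n ∈ Φ)
          (∑' F : Finset (Points K), if (F : Set (Points K)) ∈ Φ then w F else 0)) ∧
    (∀ δ : ℝ, 0 < δ → ∃ C : ℝ, ∀ Z N : ℝ, 1 ≤ Z → 1 ≤ N →
      ({n ∈ Ideals K N | ∃ P ∈ Sol n, Z < R (coords P)}.ncard : ℝ) ≤
        C * Z ^ (-(1 / 3) + δ) * N) ∧
    (∀ ψ : ℝ → ℝ, Tendsto ψ atTop atTop →
      Density (fun n : Ideal (𝓞 K) => ∃ P ∈ Sol n, ψ (Ideal.absNorm n : ℝ) < height (coords P))
        0) := by
  obtain ⟨S, hSdef⟩ : ∃ S : Points K → Finset (HeightOneSpectrum (𝓞 K)),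
    S = fun P : Points K => Pool.Agent.TH876.Loc.sp P.1 := ⟨_, rfl⟩
  have hR : ∀ P : Points K, R (coords P) = Pool.Agent.TH876.Loc.nn (S P) := fun P => by
    rw [hSdef, R_eq]
  have hSol : ∀ n : Ideal (𝓞 K), Sol n = Run7.h283.UE.U S n := fun n => by rw [hSdef, sol_eq]
  have hcount : ∀ δ : ℝ, 0 < δ → ∃ D : ℝ, 0 < D ∧ ∀ X : ℝ, 1 ≤ X →
      ∀ t : Finset (Points K), (∀ P ∈ t, Pool.Agent.TH876.Loc.nn (S P) ≤ X) →
      (t.card : ℝ) ≤ D * X ^ (2 / 3 + δ) := by
    intro δ hδ
    obtain ⟨D, hD, h⟩ := Pool.Agent.Y728.mainK K δ hδ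
    refine ⟨D, hD, fun X hX t ht => ?_⟩
    have hinj : Set.InjOn (fun P : Points K => P.1) t := fun P _ Q _ h => Subtype.ext h
    have h1 := h X hX (t.image fun P => P.1) (fun x hx => by
      obtain ⟨P, hP, rfl⟩ := Finset.mem_image.1 hx
      have := ht P hP
      rw [hSdef] at this
      exact ⟨P.2, this⟩)
    rwa [Finset.card_image_of_injOn hinj] at h1
  have hS : Summable fun P : Points K => (Pool.Agent.TH876.Loc.nn (S P))⁻¹ := by
    obtain ⟨D, hD, h⟩ := hcount (1 / 6) (by norm_num)
    exact Run7.h283.UE.summable_of_count _ (fun P => Pool.Agent.TH876.Loc.one_le_nn _) hD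
      (by norm_num) h
  have hRfun : (fun P : Points K => (R (coords P))⁻¹) =
      fun P => (Pool.Agent.TH876.Loc.nn (S P))⁻¹ := funext fun P => by rw [hR]
  refine ⟨fun P => ⟨?_, ?_⟩, ?_, ?_, ?_, ?_, ?_, ?_, ?_, ?_⟩
  · show P.1 + 1 + (-P.1 - 1) = 0
    ring
  · show P.1 * 1 * (-P.1 - 1) ≠ 0
    refine mul_ne_zero (mul_ne_zero P.2.1 one_ne_zero) ?_
    intro h
    exact P.2.2 (by linear_combination -h)
  · intro a hs hne
    have h0 : a 0 ≠ 0 := fun h => hne (by rw [h]; ring)
    have h1 : a 1 ≠ 0 := fun h => hne (by rw [h]; ring)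
    have hp := Pool.Agent.TH876.Loc.pt_of_triple hs hne
    refine ⟨⟨a 0 / a 1, hp⟩, ⟨a 1, h1, ?_⟩, ?_⟩
    · funext i
      rw [Pi.smul_apply, smul_eq_mul]
      fin_cases i
      · show a 0 = a 1 * (a 0 / a 1)
        field_simp
      · show a 1 = a 1 * 1
        ring
      · show a 2 = a 1 * (-(a 0 / a 1) - 1)
        have : a 2 = -(a 0 + a 1) := by linear_combination hs
        rw [this]
        field_simp
        ring
    · rintro Q ⟨l, hl, hQ⟩
      apply Subtype.ext
      have e0 := congrFun hQ 0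
      have e1 := congrFun hQ 1
      rw [Pi.smul_apply, smul_eq_mul] at e0 e1
      have e0' : a 0 = l * Q.1 := e0
      have e1' : a 1 = l * 1 := e1
      show Q.1 = a 0 / a 1
      rw [e0', e1']
      field_simp
  · intro n hn
    rw [hSol]
    exact Run7.h283.UE.U_finite hS hn
  · intro N
    rw [ideals_eq]
    exact Finset.finite_toSet _
  · rw [hRfun]
    exact hS
  · rw [hRfun]
    refine (Run7.h283.UE.mean hS).congr fun N => ?_
    rw [ncard_eq, ideals_eq, finsum_mem_coe_finset]
    congr 1
    exact Finset.sum_congr rfl fun n _ => by rw [hSol]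
  · obtain ⟨w, hw, hlaw⟩ := Run7.h283.UE.law hS
    refine ⟨w, fun F => (hw F).nonneg, ?_, ?_, fun Φ => ?_⟩
    · obtain ⟨δ, h1, h2⟩ := hlaw Set.univ
      have h3 : δ = 1 := h1.unique (Run7.h283.UE.hasDens_true.congr fun n _ => by simp)
      rw [h3] at h2
      simpa using h2
    · rw [hRfun]
      exact Run7.h283.UE.law_mean hS hw hlaw
    · obtain ⟨δ, h1, h2⟩ := hlaw Φ
      rw [h2.tsum_eq]
      exact density_of (h1.congr fun n _ => by rw [hSol])
  · intro δ hδ
    obtain ⟨D, hD, h⟩ := hcount (min δ (1 / 6)) (by positivity)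
    have hθ : 2 / 3 + min δ (1 / 6) < 1 := by
      have := min_le_right δ (1 / 6 : ℝ)
      linarith
    obtain ⟨C, hC, htail⟩ := Run7.h283.UE.power_tail
      (fun P : Points K => Pool.Agent.TH876.Loc.nn (S P)) hD hθ h
    obtain ⟨C', hC', hbad⟩ := Run7.h283.UE.bad_card K
    refine ⟨C' * C, fun Z N hZ hN => ?_⟩
    have h1 := hbad S hS Z (C * Z ^ (2 / 3 + min δ (1 / 6) - 1)) (fun t ht =>
      htail Z hZ t fun i hi => (ht i hi).le) N (by linarith)
    rw [ncard_sep]
    have h2 : Z ^ (2 / 3 + min δ (1 / 6) - 1) ≤ Z ^ (-(1 / 3) + δ) := by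
      refine Real.rpow_le_rpow_of_exponent_le hZ ?_
      have := min_le_left δ (1 / 6 : ℝ)
      linarith
    have h3 : ((Run7.h283.UE.IF K N).filter fun n => ∃ P ∈ Sol n, Z < R (coords P)) =
        (Run7.h283.UE.IF K N).filter fun n => ∃ i ∈ Run7.h283.UE.U S n,
          Z < Pool.Agent.TH876.Loc.nn (S i) := by
      refine Finset.filter_congr fun n _ => ?_
      rw [hSol]
      simp only [hR]
    rw [h3]
    calc _ ≤ C' * (C * Z ^ (2 / 3 + min δ (1 / 6) - 1)) * N := h1
      _ ≤ C' * (C * Z ^ (-(1 / 3) + δ)) * N := by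
          refine mul_le_mul_of_nonneg_right ?_ (by linarith)
          exact mul_le_mul_of_nonneg_left (mul_le_mul_of_nonneg_left h2 hC.le) hC'.le
      _ = _ := by ring
  · intro ψ hψ
    exact density_of ((Run7.h283.UE.far hS (fun P => height (coords P)) hψ).congr fun n _ => by
      rw [hSol])

end Pool.Agent.Results.MP_a793bb_nt.UnitEquationsLaw
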